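import Mathlib
import Pool.Agent.Y532.SC.Deg

/-!
# Every sufficiently large real number is the degree of a member of the Selberg class

The axioms are those of the problem (in the form of the frozen statements).  For every real `d ≥ d₀` there
are `λ₁ + λ₂ = d / 2` and `μ₁, μ₂ ≥ 0` such that for EVERY sufficiently large real `Q` there is a member of
the Selberg class with the functional equation data `(Q; λ₁, λ₂; μ₁, μ₂)`.  It is an entire function,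
a product of two Euler products `∏ (1 + a(p) p^{-s})`.
-/

set_option autoImplicit false

open Complex Finset

namespace Pool.Agent.Results.MP_0bb3d8_nt.EveryLargeDegree

/-- The axioms of the Selberg class for the Dirichlet series with coefficients `f`, where the functional
equation holds with the data `Q`, `lam`, `mu`, `ω`. -/
structure IsSelberg (f : ℕ → ℂ) (k : ℕ) (Q : ℝ) (lam : Fin k → ℝ) (mu : Fin k → ℂ) (ω : ℂ) : Prop where
  /-- the series is not identically zero -/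
  nonzero : ∃ n : ℕ, 0 < n ∧ f n ≠ 0
  /-- absolute convergence for `Re s > 1` -/
  abs_conv : ∀ s : ℂ, 1 < s.re → LSeriesSummable f s
  /-- Ramanujan bound -/
  ramanujan : ∀ ε : ℝ, 0 < ε → ∃ C : ℝ, ∀ n : ℕ, 1 ≤ n → ‖f n‖ ≤ C * (n : ℝ) ^ ε
  /-- the data are admissible -/
  data : 0 < Q ∧ (∀ j, 0 < lam j) ∧ (∀ j, 0 ≤ (mu j).re) ∧ ‖ω‖ = 1
  /-- `(s - 1)^m F(s)` extends to an entire function `G` of finite order, and the completed function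
  `Λ(s) = F(s) Q^s ∏ Γ(lam_j s + mu_j)` satisfies `Λ(s) = ω conj Λ(1 - conj s)` -/
  continuation : ∃ (m : ℕ) (G : ℂ → ℂ), Differentiable ℂ G ∧
    (∃ ρ C : ℝ, ∀ s : ℂ, ‖G s‖ ≤ C * Real.exp (‖s‖ ^ ρ)) ∧
    (∀ s : ℂ, 1 < s.re → G s = (s - 1) ^ m * LSeries f s) ∧
    ∀ s : ℂ, s ≠ 0 → s ≠ 1 →
      (∀ j, ∀ n : ℕ, (lam j : ℂ) * s + mu j ≠ -(n : ℂ)) →
      (∀ j, ∀ n : ℕ, (lam j : ℂ) * (1 - starRingEnd ℂ s) + mu j ≠ -(n : ℂ)) →
      G s / (s - 1) ^ m * (Q : ℂ) ^ s * ∏ j, Complex.Gamma ((lam j : ℂ) * s + mu j)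
        = ω * starRingEnd ℂ
            (G (1 - starRingEnd ℂ s) / (1 - starRingEnd ℂ s - 1) ^ m
              * (Q : ℂ) ^ (1 - starRingEnd ℂ s)
              * ∏ j, Complex.Gamma ((lam j : ℂ) * (1 - starRingEnd ℂ s) + mu j))
  /-- Euler product with `b(p^k) ≪ p^{kθ}`, `θ < 1/2` -/
  euler : ∃ (b : ℕ → ℂ) (θ : ℝ), θ < 1 / 2 ∧
    (∃ C : ℝ, ∀ p k : ℕ, p.Prime → 1 ≤ k → ‖b (p ^ k)‖ ≤ C * ((p ^ k : ℕ) : ℝ) ^ θ) ∧
    ∀ s : ℂ, 1 < s.re →
      HasProd (fun p : Nat.Primes =>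
        Complex.exp (∑' k : ℕ, b ((p : ℕ) ^ (k + 1)) * ((p : ℕ) : ℂ) ^ (-(((k + 1 : ℕ) : ℂ) * s))))
        (LSeries f s)

open Pool.Agent.Y532.SC in
/-- the product of two elements -/
theorem product {lam₁ lam₂ nu₁ nu₂ q ε₁ ε₂ : ℝ} {g₁ g₂ : ℕ → ℝ} {F₁ F₂ : ℂ → ℂ} (hq : 0 < q)
    (hl₁ : 0 < lam₁) (hl₂ : 0 < lam₂) (hn₁ : 0 ≤ nu₁) (hn₂ : 0 ≤ nu₂)
    (h₁ : One lam₁ nu₁ q ε₁ g₁ F₁) (h₂ : One lam₂ nu₂ q ε₂ g₂ F₂) :
    IsSelberg (LSeries.convolution (co g₁) (co g₂)) 2 (q * q) ![lam₁, lam₂] ![(nu₁ : ℂ), (nu₂ : ℂ)]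
      ((ε₁ * ε₂ : ℝ) : ℂ) where
  nonzero := by
    refine ⟨1, one_pos, ?_⟩
    rw [LSeries.convolution_def]
    simp [co_one]
  abs_conv := fun s hs => (co_summable h₁.bdd hs).convolution (co_summable h₂.bdd hs)
  ramanujan := by
    intro ε hε
    obtain ⟨C, hC, h⟩ := Pool.Agent.H510R2.divisor_bound ε hε
    refine ⟨C, fun n hn => ?_⟩
    rw [LSeries.convolution_def]
    refine (norm_sum_le _ _).trans ?_
    refine le_trans ?_ (h n hn)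
    calc ∑ p ∈ n.divisorsAntidiagonal, ‖co g₁ p.1 * co g₂ p.2‖ ≤ ∑ p ∈ n.divisorsAntidiagonal, (1 : ℝ) := by
          apply Finset.sum_le_sum
          intro p _
          rw [norm_mul]
          exact mul_le_one₀ (co_bdd h₁.bdd _) (norm_nonneg _) (co_bdd h₂.bdd _)
      _ = n.divisors.card := by
          rw [Finset.sum_const, nsmul_eq_mul, mul_one, ← Nat.map_div_right_divisors, Finset.card_map]
  data := by
    refine ⟨mul_pos hq hq, ?_, ?_, ?_⟩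
    · intro j
      fin_cases j
      · simpa using hl₁
      · simpa using hl₂
    · intro j
      fin_cases j
      · simpa using hn₁
      · simpa using hn₂
    · rcases h₁.eps with h | h <;> rcases h₂.eps with h' | h' <;> rw [h, h'] <;> simp
  continuation := by
    obtain ⟨C₁, hC₁⟩ := h₁.growth
    obtain ⟨C₂, hC₂⟩ := h₂.growth
    refine ⟨0, fun s => F₁ s * F₂ s, h₁.diff.mul h₂.diff, ?_, ?_, ?_⟩
    · refine ⟨4, |C₁| * |C₂| * Real.exp 16, fun s => ?_⟩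
      have hx : 0 ≤ ‖s‖ := norm_nonneg s
      have e3 : ‖s‖ ^ (3 : ℝ) = ‖s‖ ^ 3 := by
        rw [← Real.rpow_natCast]; norm_num
      have e4 : ‖s‖ ^ (4 : ℝ) = ‖s‖ ^ 4 := by
        rw [← Real.rpow_natCast]; norm_num
      have a1 : ‖F₁ s‖ ≤ |C₁| * Real.exp (‖s‖ ^ (3 : ℝ)) :=
        (hC₁ s).trans (mul_le_mul_of_nonneg_right (le_abs_self _) (Real.exp_pos _).le)
      have a2 : ‖F₂ s‖ ≤ |C₂| * Real.exp (‖s‖ ^ (3 : ℝ)) :=
        (hC₂ s).trans (mul_le_mul_of_nonneg_right (le_abs_self _) (Real.exp_pos _).le)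
      rw [norm_mul]
      calc ‖F₁ s‖ * ‖F₂ s‖ ≤ (|C₁| * Real.exp (‖s‖ ^ (3 : ℝ))) * (|C₂| * Real.exp (‖s‖ ^ (3 : ℝ))) := by
            gcongr
        _ = |C₁| * |C₂| * Real.exp (2 * ‖s‖ ^ (3 : ℝ)) := by
            rw [two_mul, Real.exp_add]; ring
        _ ≤ |C₁| * |C₂| * Real.exp (16 + ‖s‖ ^ (4 : ℝ)) := by
            have : 2 * ‖s‖ ^ (3 : ℝ) ≤ 16 + ‖s‖ ^ (4 : ℝ) := by
              rw [e3, e4]
              rcases le_total ‖s‖ 2 with h | h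
              · have h3 : ‖s‖ ^ 3 ≤ 2 ^ 3 := pow_le_pow_left₀ hx h 3
                have h4 : 0 ≤ ‖s‖ ^ 4 := by positivity
                linarith
              · have h3 : 0 ≤ ‖s‖ ^ 3 := by positivity
                have h4 : ‖s‖ ^ 4 = ‖s‖ ^ 3 * ‖s‖ := by ring
                nlinarith
            gcongr
        _ = |C₁| * |C₂| * Real.exp 16 * Real.exp (‖s‖ ^ (4 : ℝ)) := by
            rw [Real.exp_add]; ring
    · intro s hs
      rw [pow_zero, one_mul, LSeries_convolution' (co_summable h₁.bdd hs) (co_summable h₂.bdd hs),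
        ← h₁.series s hs, ← h₂.series s hs]
    · intro s _ _ hs1 hs2
      have f1 := h₁.fe s (by simpa using hs1 0) (by simpa using hs2 0)
      have f2 := h₂.fe s (by simpa using hs1 1) (by simpa using hs2 1)
      have eQ : ∀ z : ℂ, ((q * q : ℝ) : ℂ) ^ z = (q : ℂ) ^ z * (q : ℂ) ^ z := by
        intro z
        rw [Complex.ofReal_mul, Complex.mul_cpow_ofReal_nonneg hq.le hq.le]
      rw [eQ, eQ]
      simp only [Fin.prod_univ_two, Matrix.cons_val_zero, Matrix.cons_val_one, pow_zero, div_one, map_mul,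
        Complex.ofReal_mul] at f1 f2 ⊢
      linear_combination (F₂ s * (q : ℂ) ^ s * Gamma ((lam₂ : ℂ) * s + nu₂)) * f1 +
        ((ε₁ : ℂ) * (starRingEnd ℂ (F₁ (1 - starRingEnd ℂ s)) * starRingEnd ℂ ((q : ℂ) ^ (1 - starRingEnd ℂ s)) *
          starRingEnd ℂ (Gamma ((lam₁ : ℂ) * (1 - starRingEnd ℂ s) + nu₁)))) * f2
  euler := by
    refine ⟨fun n => bo g₁ n + bo g₂ n, 0, by norm_num, ⟨2, fun p k hp hk => ?_⟩, fun s hs => ?_⟩
    · rw [Real.rpow_zero, mul_one]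
      refine (norm_add_le _ _).trans ?_
      have := bo_bdd h₁.bdd hp hk
      have := bo_bdd h₂.bdd hp hk
      linarith
    · rw [LSeries_convolution' (co_summable h₁.bdd hs) (co_summable h₂.bdd hs)]
      have e : (fun p : Nat.Primes => Complex.exp (∑' k : ℕ, (bo g₁ ((p : ℕ) ^ (k + 1)) + bo g₂ ((p : ℕ) ^ (k + 1))) *
          ((p : ℕ) : ℂ) ^ (-(((k + 1 : ℕ) : ℂ) * s)))) =
          fun p : Nat.Primes => Complex.exp (∑' k : ℕ, bo g₁ ((p : ℕ) ^ (k + 1)) *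
            ((p : ℕ) : ℂ) ^ (-(((k + 1 : ℕ) : ℂ) * s))) * Complex.exp (∑' k : ℕ, bo g₂ ((p : ℕ) ^ (k + 1)) *
            ((p : ℕ) : ℂ) ^ (-(((k + 1 : ℕ) : ℂ) * s))) := by
        funext p
        rw [← Complex.exp_add, ← (bo_summable h₁.bdd hs p).tsum_add (bo_summable h₂.bdd hs p)]
        congr 2
        funext k
        ring
      rw [e]
      exact (co_euler h₁.bdd hs).mul (co_euler h₂.bdd hs)

/-- every large real is a sum of two exponents of the allowed kind -/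
theorem split (m₀ : ℕ) (x : ℝ) (hx : 2 * (m₀ : ℝ) + 4 ≤ x) : ∃ (m₁ m₂ : ℕ) (y₁ y₂ : ℝ), m₀ ≤ m₁ ∧ m₀ ≤ m₂ ∧
    2 * m₁ + 1 < y₁ ∧ y₁ ≤ 2 * m₁ + 2 ∧ 2 * m₂ + 1 < y₂ ∧ y₂ ≤ 2 * m₂ + 2 ∧ y₁ + y₂ = 2 * x := by
  have hm₀ : (0 : ℝ) ≤ m₀ := Nat.cast_nonneg m₀
  obtain ⟨n, hn⟩ : ∃ n : ℕ, n = ⌈x⌉₊ := ⟨_, rfl⟩
  have h1 : x ≤ n := by rw [hn]; exact Nat.le_ceil x
  have h2 : (n : ℝ) < x + 1 := by rw [hn]; exact Nat.ceil_lt_add_one (by linarith)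
  have h3 : 2 * m₀ + 4 ≤ n := by
    have : (2 * (m₀ : ℝ) + 4) ≤ n := hx.trans h1
    exact_mod_cast this
  rcases Nat.even_or_odd' n with ⟨k, hk | hk⟩
  · -- `n = 2 k`
    have hk2 : m₀ + 2 ≤ k := by omega
    obtain ⟨m, hm⟩ : ∃ m : ℕ, k = m + 1 := ⟨k - 1, by omega⟩
    have hnm : (n : ℝ) = 2 * m + 2 := by rw [hk, hm]; push_cast; ring
    refine ⟨m, m, x, x, by omega, by omega, ?_, ?_, ?_, ?_, by ring⟩ <;> linarith
  · obtain ⟨m, hm⟩ : ∃ m : ℕ, k = m + 1 := ⟨k - 1, by omega⟩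
    have hnm : (n : ℝ) = 2 * m + 3 := by rw [hk, hm]; push_cast; ring
    refine ⟨m, m + 1, x - 1, x + 1, by omega, by omega, ?_, ?_, ?_, ?_, by ring⟩
    · linarith
    · linarith
    · push_cast; linarith
    · push_cast; linarith

/-- **Main result.**  There is `d₀` such that for every real `d ≥ d₀` there are `λ₁, λ₂ > 0` and
`μ₁, μ₂` with `2 (λ₁ + λ₂) = d` such that for every sufficiently large real `Q` there is a member of the
Selberg class which satisfies the functional equation with the data `(Q; λ₁, λ₂; μ₁, μ₂)`; its degree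
is `d`. -/
theorem result : ∃ d₀ : ℝ, ∀ d : ℝ, d₀ ≤ d → ∃ (lam : Fin 2 → ℝ) (mu : Fin 2 → ℂ), 2 * ∑ j, lam j = d ∧
    ∃ Q₀ : ℝ, ∀ Q : ℝ, Q₀ ≤ Q → ∃ (f : ℕ → ℂ) (ω : ℂ), IsSelberg f 2 Q lam mu ω := by
  obtain ⟨m₀, hm₀2, h⟩ := Pool.Agent.Y532.SC.single
  refine ⟨4 * (2 * (m₀ : ℝ) + 4), fun d hd => ?_⟩
  obtain ⟨m₁, m₂, y₁, y₂, h1, h2, h3, h4, h5, h6, h7⟩ := split m₀ (d / 4) (by linarith)
  obtain ⟨Q₁, hQ₁, H₁⟩ := h m₁ h1 y₁ h3 h4
  obtain ⟨Q₂, hQ₂, H₂⟩ := h m₂ h2 y₂ h5 h6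
  have hm₁0 : (0 : ℝ) ≤ m₁ := Nat.cast_nonneg _
  have hm₂0 : (0 : ℝ) ≤ m₂ := Nat.cast_nonneg _
  refine ⟨![y₁, y₂], ![((m₁ + 1 - y₁ / 2 : ℝ) : ℂ), ((m₂ + 1 - y₂ / 2 : ℝ) : ℂ)], ?_, max Q₁ Q₂ ^ 2, fun Q hQ => ?_⟩
  · rw [Fin.sum_univ_two]
    simp only [Matrix.cons_val_zero, Matrix.cons_val_one]
    linarith
  · have hmax : 0 < max Q₁ Q₂ := lt_of_lt_of_le one_pos (hQ₁.trans (le_max_left _ _))
    have hQ0 : 0 ≤ Q := (sq_nonneg _).trans hQ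
    have hs : max Q₁ Q₂ ≤ Real.sqrt Q := Real.le_sqrt_of_sq_le hQ
    have hs0 : 0 < Real.sqrt Q := hmax.trans_le hs
    obtain ⟨ε₁, g₁, F₁, O₁⟩ := H₁ (Real.sqrt Q) ((le_max_left _ _).trans hs)
    obtain ⟨ε₂, g₂, F₂, O₂⟩ := H₂ (Real.sqrt Q) ((le_max_right _ _).trans hs)
    have hP := product hs0 (by linarith) (by linarith) (by linarith) (by linarith) O₁ O₂
    rw [Real.mul_self_sqrt hQ0] at hP
    exact ⟨_, _, hP⟩

end Pool.Agent.Results.MP_0bb3d8_nt.EveryLargeDegree
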